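import Pool.Agent.Run7.h180.Main

/-!
# NP-completeness of `H`-LIHOM for hosts that survive the deletion of two edges at a vertex

Let `H` be a finite simple graph with a vertex of degree at least 4 that stays connected whenever
two edges with a common end are deleted (the two edges may be equal). Then it is NP-complete to
decide whether an input graph has a locally injective homomorphism to `H`.

The hypothesis holds for every 3-edge-connected graph and for every 2-connected graph of minimum
degree at least 3, if some degree is at least 4.

Outline of the proof.
* Numbers of walks (`Walks`, `Sim`): a locally injective homomorphism from a graph that is a cover of
  `H` far away from a few defects preserves the numbers of walks of all lengths.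
* Tie gadgets (`Cover`, `Tie`, `Balance`, `TieThm`): take a finite cover of `H` which looks like the
  universal cover near one vertex `x`, and delete two edges at `x`. Counting the fibres over the
  vertices of `H`, and the assumption on `H`, show that every locally injective homomorphism sends the
  other ends of the two deleted edges to the two colours missing at `x`.
* Block graphs (`Cfg`, `Produce`, `Block`): with tie gadgets one builds graphs with designated vertices
  whose colours are the images of prescribed vertices under an automorphism of `H`, and whose free
  neighbours are prescribed.
* Patterns of non-backtracking walks (`Meet`, `Pattern`) and the reduction (`Red1`, `Red2`, `Red3`,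
  `Enc`) from the satisfiability problem in which a clause is satisfied if the values of its literals
  fit to three ports in some order (`Sat`).
-/

namespace Pool.Agent.Results.MP_37fcc1_lc.TwoEdgeDeletion

open Pool.Agent.H38.NP Run7.h180

/-- **`H`-LIHOM is NP-complete** for every finite simple graph `H` that has a vertex of degree at
least 4 and is still connected after the deletion of any two edges with a common end. -/
theorem result (k : ℕ) (H : SimpleGraph (Fin k)) (h4 : ∃ v, 4 ≤ (H.neighborSet v).ncard)
    (hC : ∀ a b c, H.Adj a b → H.Adj a c → (H.deleteEdges {s(a, b), s(a, c)}).Connected) :
    NPComplete (lang (LIHOM H)) :=
  lihom_npc H h4 hC

end Pool.Agent.Results.MP_37fcc1_lc.TwoEdgeDeletion
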